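import Pool.Agent.H97Z.JE.Defs

set_option autoImplicit false

open MeasureTheory Filter Topology
open scoped ENNReal

noncomputable section

namespace Pool.Agent.H262Z.JE

open Pool.Agent.H97Z.JE

/-- the shift -/
def sh (m : ℤ) (y : ℤ → Bool) : ℤ → Bool := fun j => y (j + m)

lemma sh_cont (m : ℤ) : Continuous (sh m) :=
  continuous_pi fun j => continuous_apply (j + m)

lemma sh_add (a b : ℤ) (y : ℤ → Bool) : sh (a + b) y = sh a (sh b y) := by
  funext j; simp only [sh, add_assoc]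

lemma sh_zero (y : ℤ → Bool) : sh 0 y = y := by funext j; simp [sh]

/-- empirical measure of the first `N + 1` points of the orbit -/
def emp (ω : ℤ → Bool) (N : ℕ) : ProbabilityMeasure (ℤ → Bool) :=
  ⟨((N + 1 : ℕ) : ℝ≥0∞)⁻¹ • ∑ m ∈ Finset.range (N + 1), Measure.dirac (sh m ω), ⟨by
    simp only [Measure.smul_apply, Measure.coe_finsetSum, Finset.sum_apply, measure_univ,
      Finset.sum_const, Finset.card_range, nsmul_eq_mul, mul_one, smul_eq_mul]
    exact ENNReal.inv_mul_cancel (by simp) (by simp)⟩⟩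

lemma emp_apply (ω : ℤ → Bool) (N : ℕ) {C : Set (ℤ → Bool)} (hC : MeasurableSet C) :
    (emp ω N : Measure (ℤ → Bool)) C =
      ((N + 1 : ℕ) : ℝ≥0∞)⁻¹ * ∑ m ∈ Finset.range (N + 1), C.indicator 1 (sh m ω) := by
  simp only [emp, ProbabilityMeasure.coe_mk, Measure.smul_apply, Measure.coe_finsetSum,
    Finset.sum_apply, Measure.dirac_apply' _ hC, smul_eq_mul]

lemma emp_shift (ω : ℤ → Bool) (N : ℕ) {C : Set (ℤ → Bool)} (hC : MeasurableSet C) :
    (emp ω N : Measure (ℤ → Bool)) (sh 1 ⁻¹' C) ≤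
      (emp ω N : Measure (ℤ → Bool)) C + ((N + 1 : ℕ) : ℝ≥0∞)⁻¹ := by
  rw [emp_apply ω N ((sh_cont 1).measurable hC), emp_apply ω N hC]
  have e : ∀ m : ℕ, (sh 1 ⁻¹' C).indicator (1 : (ℤ → Bool) → ℝ≥0∞) (sh m ω) =
      C.indicator 1 (sh ((m + 1 : ℕ) : ℤ) ω) := by
    intro m
    have : sh ((m + 1 : ℕ) : ℤ) ω = sh 1 (sh m ω) := by
      rw [← sh_add]; congr 1; push_cast; ring
    rw [this]
    rfl
  simp only [e]
  have h1 : ∑ m ∈ Finset.range (N + 1), C.indicator (1 : (ℤ → Bool) → ℝ≥0∞)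
      (sh ((m + 1 : ℕ) : ℤ) ω) ≤
      ∑ m ∈ Finset.range (N + 1), C.indicator (1 : (ℤ → Bool) → ℝ≥0∞) (sh m ω) + 1 := by
    have h2 := Finset.sum_range_succ'
      (fun m : ℕ => C.indicator (1 : (ℤ → Bool) → ℝ≥0∞) (sh m ω)) (N + 1)
    rw [Finset.sum_range_succ _ (N + 1)] at h2
    refine le_trans (le_self_add.trans h2.symm.le) (add_le_add le_rfl ?_)
    exact Set.indicator_le_self _ _ _
  refine (mul_le_mul' le_rfl h1).trans ?_
  rw [mul_add, mul_one]

lemma inv_of_lim {ω : ℤ → Bool} {F : Filter ℕ} [F.NeBot] (hF : F ≤ atTop)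
    {μ : ProbabilityMeasure (ℤ → Bool)} (h : Tendsto (emp ω) F (𝓝 μ)) (a : ℤ) :
    MeasurePreserving (sh a) (μ : Measure (ℤ → Bool)) μ := by
  have hl : ∀ C : Set (ℤ → Bool), IsClopen C →
      Tendsto (fun N => (emp ω N : Measure (ℤ → Bool)) C) F (𝓝 ((μ : Measure (ℤ → Bool)) C)) :=
    fun C hC => ProbabilityMeasure.tendsto_measure_of_null_frontier_of_tendsto' h (by simp [hC])
  have h0 : Tendsto (fun N : ℕ => ((N + 1 : ℕ) : ℝ≥0∞)⁻¹) F (𝓝 0) :=
    (ENNReal.tendsto_inv_nat_nhds_zero.comp (tendsto_add_atTop_nat 1)).mono_left hF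
  have hle : ∀ C : Set (ℤ → Bool), IsClopen C →
      (μ : Measure (ℤ → Bool)) (sh 1 ⁻¹' C) ≤ (μ : Measure (ℤ → Bool)) C := by
    intro C hC
    have := le_of_tendsto_of_tendsto' (hl _ (hC.preimage (sh_cont 1))) ((hl C hC).add h0)
      fun N => emp_shift ω N hC.2.measurableSet
    simpa using this
  have heq : ∀ C : Set (ℤ → Bool), IsClopen C →
      (μ : Measure (ℤ → Bool)) (sh 1 ⁻¹' C) = (μ : Measure (ℤ → Bool)) C := by
    intro C hC
    refine le_antisymm (hle C hC) ?_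
    have h1 := hle Cᶜ hC.compl
    rw [Set.preimage_compl, prob_compl_eq_one_sub hC.2.measurableSet,
      prob_compl_eq_one_sub ((sh_cont 1).measurable hC.2.measurableSet)] at h1
    exact (ENNReal.sub_le_sub_iff_left prob_le_one ENNReal.one_ne_top).1 h1
  have h1 : MeasurePreserving (sh 1) (μ : Measure (ℤ → Bool)) μ := by
    refine ⟨(sh_cont 1).measurable, ?_⟩
    have : IsProbabilityMeasure ((μ : Measure (ℤ → Bool)).map (sh 1)) :=
      Measure.isProbabilityMeasure_map (sh_cont 1).measurable.aemeasurable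
    refine ext_of_generate_finite {s : Set (ℤ → Bool) | IsClopen s} ?_ ?_ ?_ (by simp)
    · rw [BorelSpace.measurable_eq (α := ℤ → Bool)]
      exact isTopologicalBasis_isClopen.borel_eq_generateFrom
    · exact fun s hs t ht _ => IsClopen.inter hs ht
    · intro s hs
      rw [Measure.map_apply (sh_cont 1).measurable (IsClopen.isOpen hs).measurableSet]
      exact heq s hs
  have h2 : MeasurePreserving (sh (-1)) (μ : Measure (ℤ → Bool)) μ := by
    refine ⟨(sh_cont _).measurable, ?_⟩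
    conv_lhs => rw [← h1.map_eq]
    rw [Measure.map_map (sh_cont _).measurable (sh_cont _).measurable]
    have : sh (-1) ∘ sh 1 = id := by
      funext y; simp only [Function.comp_apply, ← sh_add]; simp [sh_zero]
    rw [this, Measure.map_id]
  induction a using Int.induction_on with
  | zero =>
    have : sh 0 = id := funext sh_zero
    rw [this]; exact MeasurePreserving.id _
  | succ i ih =>
    have : sh (i + 1) = sh i ∘ sh 1 := funext fun y => sh_add _ _ y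
    rw [this]; exact ih.comp h1
  | pred i ih =>
    have : sh (-(i : ℤ) - 1) = sh (-i) ∘ sh (-1) := funext fun y => sh_add _ _ y
    rw [this]; exact ih.comp h2

lemma floor_ne {a b : ℝ} (ha : 0 < a) (hab : a < b) :
    ∀ᶠ n : ℕ in atTop, ⌊(n : ℝ) ^ a⌋₊ ≠ ⌊(n : ℝ) ^ b⌋₊ := by
  have h := ((tendsto_rpow_atTop (sub_pos.2 hab)).comp
    tendsto_natCast_atTop_atTop).eventually_ge_atTop 2
  filter_upwards [h, eventually_ge_atTop 1] with n h2 h1
  have hn : (1 : ℝ) ≤ n := by exact_mod_cast h1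
  have h3 : 1 ≤ (n : ℝ) ^ a := Real.one_le_rpow hn ha.le
  have h4 : (n : ℝ) ^ b = (n : ℝ) ^ a * (n : ℝ) ^ (b - a) := by
    rw [← Real.rpow_add (by linarith)]; congr 1; ring
  have h5 : (n : ℝ) ^ a + 1 ≤ (n : ℝ) ^ b := by
    have h2' : 2 ≤ (n : ℝ) ^ (b - a) := h2
    rw [h4]; nlinarith
  have h6 := Nat.floor_mono h5
  rw [Nat.floor_add_one (by linarith)] at h6
  omega

theorem fin12039 (hr : S_rec) (hd : S_dec) :
    ∀ a b : ℝ, 1 < a → 1 < b → a ≠ b →
      (∀ k : ℤ, a ≠ (k : ℝ)) → (∀ k : ℤ, b ≠ (k : ℝ)) →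
      ∀ E : Set ℕ,
        (∃ δ : ℝ, 0 < δ ∧ ∀ N₀ : ℕ, ∃ N : ℕ, N₀ ≤ N ∧
            δ * (N : ℝ) ≤ (({k : ℕ | k ∈ E ∧ k < N}.ncard : ℕ) : ℝ)) →
        ∃ m n : ℕ, 0 < n ∧ ⌊(n : ℝ) ^ a⌋₊ ≠ ⌊(n : ℝ) ^ b⌋₊ ∧
          m ∈ E ∧ m + ⌊(n : ℝ) ^ a⌋₊ ^ 2 ∈ E ∧ m + ⌊(n : ℝ) ^ b⌋₊ ^ 2 ∈ E := by
  classical
  intro a b ha hb hab hai hbi E ⟨δ, hδ, hE⟩
  by_contra hno
  have hok : Ok ![a, b] := by
    refine ⟨?_, ?_⟩
    · intro i j hij
      fin_cases i <;> fin_cases j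
      · rfl
      · exact absurd hij hab
      · exact absurd hij hab.symm
      · rfl
    · intro i
      fin_cases i
      · exact ⟨by change 0 < a; linarith, hai⟩
      · exact ⟨by change 0 < b; linarith, hbi⟩
  have hfl : ∀ᶠ n : ℕ in atTop, ⌊(n : ℝ) ^ a⌋₊ ≠ ⌊(n : ℝ) ^ b⌋₊ := by
    rcases lt_or_gt_of_ne hab with h | h
    · exact floor_ne (by linarith) h
    · exact (floor_ne (by linarith) h).mono fun n hn => hn.symm
  obtain ⟨n0, hn0⟩ := eventually_atTop.1 (hfl.and (eventually_gt_atTop 0))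
  let ω : ℤ → Bool := fun j => decide (j.toNat ∈ E)
  have hω : ∀ m : ℕ, ω m = true ↔ m ∈ E := fun m => by simp [ω]
  let A : Set (ℤ → Bool) := {y | y 0 = true}
  have hA : IsClopen A := (isClopen_discrete {true}).preimage (continuous_apply 0)
  have hmem : ∀ m : ℕ, sh m ω ∈ A ↔ m ∈ E := fun m => by
    change ω (0 + m) = true ↔ _
    rw [zero_add, hω]
  have hfreq : ∃ᶠ N : ℕ in atTop, ENNReal.ofReal δ ≤ (emp ω N : Measure (ℤ → Bool)) A := by
    rw [frequently_atTop]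
    intro N0
    obtain ⟨N, hN, h⟩ := hE (N0 + 1)
    obtain ⟨M, rfl⟩ : ∃ M, N = M + 1 := ⟨N - 1, by omega⟩
    refine ⟨M, by omega, ?_⟩
    rw [emp_apply ω M hA.2.measurableSet]
    have e1 : ∑ m ∈ Finset.range (M + 1), A.indicator (1 : (ℤ → Bool) → ℝ≥0∞) (sh m ω) =
        (((Finset.range (M + 1)).filter fun m => m ∈ E).card : ℝ≥0∞) := by
      rw [Finset.card_filter]
      push_cast
      refine Finset.sum_congr rfl fun m _ => ?_
      simp only [Set.indicator_apply, hmem, Pi.one_apply]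
    have e2 : {k : ℕ | k ∈ E ∧ k < M + 1}.ncard =
        ((Finset.range (M + 1)).filter fun m => m ∈ E).card := by
      rw [← Set.ncard_coe_finset]
      congr 1
      ext k
      simp [and_comm]
    rw [e1, ← e2, ← ENNReal.div_eq_inv_mul, ENNReal.le_div_iff_mul_le (by simp) (by simp),
      ← ENNReal.ofReal_natCast (M + 1), ← ENNReal.ofReal_mul hδ.le, ← ENNReal.ofReal_natCast]
    exact ENNReal.ofReal_le_ofReal h
  have hne : (atTop ⊓ 𝓟 {N | ENNReal.ofReal δ ≤ (emp ω N : Measure (ℤ → Bool)) A}).NeBot :=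
    frequently_iff_neBot.1 hfreq
  let 𝒰 := Ultrafilter.of (atTop ⊓ 𝓟 {N | ENNReal.ofReal δ ≤ (emp ω N : Measure (ℤ → Bool)) A})
  have h𝒰 : (𝒰 : Filter ℕ) ≤
      atTop ⊓ 𝓟 {N | ENNReal.ofReal δ ≤ (emp ω N : Measure (ℤ → Bool)) A} := Ultrafilter.of_le _
  obtain ⟨μ, -, hμ⟩ := isCompact_univ.ultrafilter_le_nhds (𝒰.map (emp ω)) (by simp)
  have hlim : Tendsto (emp ω) (𝒰 : Filter ℕ) (𝓝 μ) := hμ
  have hl : ∀ C : Set (ℤ → Bool), IsClopen C → Tendsto
      (fun N => (emp ω N : Measure (ℤ → Bool)) C) 𝒰 (𝓝 ((μ : Measure (ℤ → Bool)) C)) :=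
    fun C hC => ProbabilityMeasure.tendsto_measure_of_null_frontier_of_tendsto' hlim (by simp [hC])
  have hμA : ENNReal.ofReal δ ≤ (μ : Measure (ℤ → Bool)) A :=
    ge_of_tendsto (hl A hA) (le_principal_iff.1 (h𝒰.trans inf_le_right))
  let S : Sys (ℤ → Bool) :=
    ⟨μ, inferInstance, sh, sh_zero, sh_add, inv_of_lim (h𝒰.trans inf_le_left) hlim⟩
  obtain ⟨κ, hκ, hbind, hae⟩ := hd (ℤ → Bool) S sh_cont
  have hb' : ∀ C : Set (ℤ → Bool), MeasurableSet C →
      ((μ : Measure (ℤ → Bool)) C = 0 ↔ ∀ᵐ x ∂(μ : Measure (ℤ → Bool)), κ x C = 0) := by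
    intro C hC
    have h1 : (μ : Measure (ℤ → Bool)) C = ∫⁻ x, κ x C ∂(μ : Measure (ℤ → Bool)) := by
      rw [← Measure.bind_apply hC κ.aemeasurable]
      exact congrArg (fun ν : Measure (ℤ → Bool) => ν C) hbind.symm
    rw [h1, lintegral_eq_zero_iff (κ.measurable_coe hC)]
    rfl
  have hP : ∀ n : ℕ, ∀ᵐ x ∂(μ : Measure (ℤ → Bool)), n0 ≤ n →
      κ x (A ∩ sh (aa a n) ⁻¹' A ∩ sh (aa b n) ⁻¹' A) = 0 := by
    intro n
    by_cases hn : n0 ≤ n
    swap
    · exact Eventually.of_forall fun x h => absurd h hn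
    have hC : IsClopen (A ∩ sh (aa a n) ⁻¹' A ∩ sh (aa b n) ⁻¹' A) :=
      (hA.inter (hA.preimage (sh_cont _))).inter (hA.preimage (sh_cont _))
    have h0 : ∀ N, (emp ω N : Measure (ℤ → Bool))
        (A ∩ sh (aa a n) ⁻¹' A ∩ sh (aa b n) ⁻¹' A) = 0 := by
      intro N
      rw [emp_apply ω N hC.2.measurableSet, Finset.sum_eq_zero, mul_zero]
      intro m _
      refine Set.indicator_of_notMem ?_ _
      rintro ⟨⟨h1, h2⟩, h3⟩
      rw [Set.mem_preimage, ← sh_add, ← Nat.cast_add, hmem, add_comm] at h2 h3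
      exact hno ⟨m, n, (hn0 n hn).2, (hn0 n hn).1, (hmem m).1 h1, h2, h3⟩
    have h1 := hl _ hC
    simp only [h0] at h1
    have h2 := tendsto_nhds_unique h1 tendsto_const_nhds
    exact ((hb' _ hC.2.measurableSet).1 h2).mono fun x hx _ => hx
  have hz : (μ : Measure (ℤ → Bool)) A = 0 := by
    refine (hb' A hA.2.measurableSet).2 ?_
    filter_upwards [hae, ae_all_iff.2 hP] with x ⟨S', h1, h2, h3⟩ hx
    by_contra h4
    obtain ⟨n, hn, h5⟩ := hr a b hok _ S' h3 A hA.2.measurableSet (by rwa [h1]) n0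
    rw [h1, h2] at h5
    exact h5 (hx n hn)
  rw [hz] at hμA
  exact absurd hμA (by simpa using hδ)

end Pool.Agent.H262Z.JE
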